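import Mathlib

/-!
# Combinatorial part (MP_12964e_gt, helper39)

Nodes are finite sequences `t : List ℕ`; `t` is below a function `φ : ℕ → ℕ` if `t i ≤ φ i` for
all `i < |t|`.  `sec y n` is the initial segment of length `n` of the sequence `y`.
-/

set_option autoImplicit false

namespace CkM1

/-- `t` is coordinatewise at most `φ`. -/
def Below (t : List ℕ) (φ : ℕ → ℕ) : Prop :=
  ∀ (i : ℕ) (hi : i < t.length), t[i] ≤ φ i

/-- The initial segment of length `n` of the sequence `y`. -/
def sec (y : ℕ → ℕ) (n : ℕ) : List ℕ := (List.range n).map y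

@[simp] lemma length_sec (y : ℕ → ℕ) (n : ℕ) : (sec y n).length = n := by
  simp [sec]

@[simp] lemma getElem_sec (y : ℕ → ℕ) (n i : ℕ) (hi : i < (sec y n).length) :
    (sec y n)[i] = y i := by
  simp [sec]

@[simp] lemma sec_zero (y : ℕ → ℕ) : sec y 0 = [] := rfl

lemma sec_succ (y : ℕ → ℕ) (n : ℕ) : sec y (n + 1) = sec y n ++ [y n] := by
  simp [sec, List.range_succ]

lemma sec_prefix_sec (y : ℕ → ℕ) {m n : ℕ} (h : m ≤ n) : sec y m <+: sec y n := by
  induction n, h using Nat.le_induction with
  | base => exact List.prefix_rfl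
  | succ n _ ih => exact ih.trans (by rw [sec_succ]; exact List.prefix_append _ _)

lemma Below.mono_prefix {s t : List ℕ} {φ : ℕ → ℕ} (ht : Below t φ) (hs : s <+: t) :
    Below s φ := by
  intro i hi
  have hi' : i < t.length := lt_of_lt_of_le hi hs.length_le
  have h1 : s[i] = t[i] := hs.getElem hi
  rw [h1]
  exact ht i hi'

lemma below_sec {y φ : ℕ → ℕ} (h : ∀ i, y i ≤ φ i) (n : ℕ) : Below (sec y n) φ := by
  intro i hi
  rw [getElem_sec]
  exact h i

/-- A node `s` is big for the sequence of nodes `t` if infinitely many `t i` extend `s`. -/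
def Big (t : ℕ → List ℕ) (s : List ℕ) : Prop := {i | s <+: t i}.Infinite

/-- Minimal elements of `B` (no proper initial segment in `B`) below a given element. -/
lemma exists_min_prefix {B : Set (List ℕ)} {t : List ℕ} (ht : t ∈ B) :
    ∃ s ∈ B, s <+: t ∧ ∀ r ∈ B, r <+: s → r = s := by
  classical
  have hex : ∃ n, ∃ s ∈ B, s <+: t ∧ s.length = n := ⟨t.length, t, ht, List.prefix_rfl, rfl⟩
  obtain ⟨s, hsB, hst, hsl⟩ := Nat.find_spec hex
  refine ⟨s, hsB, hst, fun r hr hrs => ?_⟩
  have h1 : Nat.find hex ≤ r.length := Nat.find_min' hex ⟨r, hr, hrs.trans hst, rfl⟩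
  exact hrs.eq_of_length (le_antisymm hrs.length_le (hsl ▸ h1))

/-- The key combinatorial lemma. -/
theorem exists_finset_below {B : Set (List ℕ)}
    (hB : ∀ y : ℕ → ℕ, ∃ n, sec y n ∈ B ∨ ∀ b ∈ B, ¬ sec y n <+: b) :
    ∃ M : Finset (List ℕ), (∀ s ∈ M, s ∈ B) ∧
      ∀ φ : ℕ → ℕ, Monotone φ → (∃ t ∈ B, Below t φ) → ∃ s ∈ M, Below s φ := by
  classical
  by_contra hcon
  push Not at hcon
  -- choose the bad sequence
  obtain ⟨f, hf1, hf2⟩ := exists_seq_of_forall_finset_exists
    (α := List ℕ × (ℕ → ℕ))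
    (fun x => x.1 ∈ B ∧ (∀ r ∈ B, r <+: x.1 → r = x.1) ∧ Monotone x.2 ∧ Below x.1 x.2)
    (fun x z => ¬ Below x.1 z.2) (by
      intro s hs
      obtain ⟨φ, hφ, ⟨t, htB, htφ⟩, hn⟩ := hcon (s.image Prod.fst) (by
        intro r hr
        obtain ⟨x, hx, rfl⟩ := Finset.mem_image.mp hr
        exact (hs x hx).1)
      obtain ⟨t', ht'B, ht't, hmin⟩ := exists_min_prefix htB
      exact ⟨(t', φ), ⟨ht'B, hmin, hφ, htφ.mono_prefix ht't⟩, fun x hx =>
        hn x.1 (Finset.mem_image_of_mem _ hx)⟩)
  set t : ℕ → List ℕ := fun i => (f i).1 with ht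
  set φ : ℕ → (ℕ → ℕ) := fun i => (f i).2 with hφ
  have tB : ∀ i, t i ∈ B := fun i => (hf1 i).1
  have tmin : ∀ i, ∀ r ∈ B, r <+: t i → r = t i := fun i => (hf1 i).2.1
  have φmono : ∀ i, Monotone (φ i) := fun i => (hf1 i).2.2.1
  have tφ : ∀ i, Below (t i) (φ i) := fun i => (hf1 i).2.2.2
  have tnφ : ∀ j i, j < i → ¬ Below (t j) (φ i) := fun j i h => hf2 j i h
  have tinj : Function.Injective t := by
    intro i j hij
    by_contra hne
    rcases lt_or_gt_of_ne hne with h | h
    · exact tnφ i j h (hij ▸ tφ j)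
    · exact tnφ j i h (hij ▸ tφ i)
  -- big nodes are not in `B`
  have bigB : ∀ s, Big t s → s ∉ B := by
    intro s hs hsB
    have hsub : {i | s <+: t i} ⊆ t ⁻¹' {s} := fun i hi => (tmin i s hsB hi).symm
    exact hs (((Set.finite_singleton s).preimage tinj.injOn).subset hsub)
  -- every big node has a big child
  have bigchild : ∀ s, Big t s → ∃ k, Big t (s ++ [k]) := by
    intro s hs
    by_contra hno
    push Not at hno
    have hfin : ∀ k, {i | s ++ [k] <+: t i}.Finite := fun k => Set.not_infinite.mp (hno k)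
    have hJ : ({i | s <+: t i} \ t ⁻¹' {s}).Infinite :=
      hs.sdiff ((Set.finite_singleton s).preimage tinj.injOn)
    obtain ⟨j, hj1, hj2⟩ := hJ.nonempty
    set m := (t j).sum with hm
    have hbad : ((⋃ k ∈ Finset.range (m + 1), {i | s ++ [k] <+: t i}) ∪ {i | i ≤ j}).Finite := by
      refine Set.Finite.union ?_ (Set.finite_le_nat j)
      exact Set.Finite.biUnion (Finset.finite_toSet _) (fun k _ => hfin k)
    obtain ⟨i, hi, hi'⟩ := (hJ.sdiff hbad).nonempty
    have hsi : s <+: t i := hi.1
    have hsne : s ≠ t i := fun h => hi.2 (by simp [h])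
    have hji : j < i := by
      by_contra h
      exact hi' (Or.inr (by simpa using h))
    have hlen : s.length < (t i).length := by
      rcases lt_or_eq_of_le hsi.length_le with h | h
      · exact h
      · exact absurd (hsi.eq_of_length h) hsne
    have hbig : m < (t i)[s.length] := by
      by_contra hle
      apply hi'
      left
      simp only [Set.mem_iUnion]
      refine ⟨(t i)[s.length], by simpa [Nat.lt_succ_iff] using hle, ?_⟩
      change s ++ [(t i)[s.length]] <+: t i
      have h1 : (t i).take (s.length + 1) = s ++ [(t i)[s.length]] := by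
        rw [List.take_succ_eq_append_getElem hlen]
        congr 1
        exact (List.prefix_iff_eq_take.mp hsi).symm
      rw [← h1]
      exact List.take_prefix _ _
    refine tnφ j i hji ?_
    intro l hl
    by_cases hls : l < s.length
    · have h1 : (t j)[l] = s[l] := (List.IsPrefix.getElem hj1 hls).symm
      have h2 : s[l] = (t i)[l] := hsi.getElem hls
      rw [h1, h2]
      exact tφ i l _
    · push Not at hls
      have h1 : (t j)[l] ≤ m := List.le_sum_of_mem (List.getElem_mem hl)
      have h2 : (t i)[s.length] ≤ φ i s.length := tφ i _ hlen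
      exact h1.trans (hbig.le.trans (h2.trans (φmono i hls)))
  -- build the branch
  choose c hc using bigchild
  have big0 : Big t [] := by
    have : {i | ([] : List ℕ) <+: t i} = Set.univ := by
      ext i; simp
    rw [Big, this]
    exact Set.infinite_univ
  let F : ℕ → {s : List ℕ // Big t s} := fun n =>
    Nat.rec ⟨[], big0⟩ (fun _ s => ⟨s.1 ++ [c s.1 s.2], hc s.1 s.2⟩) n
  let y : ℕ → ℕ := fun n => c (F n).1 (F n).2
  have hF : ∀ n, (F n).1 = sec y n := by
    intro n
    induction n with
    | zero => rfl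
    | succ n ih =>
      rw [sec_succ, ← ih]
  have hyB : ∀ n, Big t (sec y n) := fun n => hF n ▸ (F n).2
  obtain ⟨n, hn | hn⟩ := hB y
  · exact bigB _ (hyB n) hn
  · obtain ⟨i, hi⟩ := (hyB n).nonempty
    exact hn (t i) (tB i) hi

end CkM1
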