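import Mathlib
import Pool.Agent.Lib.MP_12964e_gt.h39.Comb

/-!
# The closure-preserving family of regular closed neighbourhoods of 0 in `C_k(X, E)`
(MP_12964e_gt, helper39)
-/

set_option autoImplicit false

open Set Topology Filter

namespace CkM1

/-- Abstract data on a metric space from which the family is built. -/
structure Data (X : Type*) [MetricSpace X] where
  /-- compact sets attached to the nodes -/
  C : List ℕ → Set X
  /-- the nodes at points without compact neighbourhoods -/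
  V : Set (List ℕ)
  /-- the point of such a node -/
  p : List ℕ → X
  /-- a sequence of points (dense) -/
  a : ℕ → X
  compC : ∀ t, IsCompact (C t)
  pC : ∀ t ∈ V, p t ∈ C t
  compK : ∀ φ, Monotone φ → IsCompact (closure (⋃ t ∈ {t | Below t φ}, C t))
  cof : ∀ L, IsCompact L → ∃ φ, Monotone φ ∧ L ⊆ closure (⋃ t ∈ {t | Below t φ}, C t)
  branch : ∀ y : ℕ → ℕ, (∃ n, ∀ e, sec y n <+: e → C e ⊆ C (sec y n)) ∨
    (∃ x, (∀ ε > 0, ∃ n, ∀ e, sec y n <+: e → C e ⊆ Metric.ball x ε) ∧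
      ∀ n, ∃ m ≥ n, sec y m ∈ V)
  marker : ∀ φ, Monotone φ → ∀ L, IsCompact L → ∀ η > 0, ∃ S : Finset ℕ,
    (∀ k ∈ S, a k ∉ closure (⋃ t ∈ {t | Below t φ}, C t) ∪ L) ∧
      ∀ u ∈ V, Below u φ → ∃ k ∈ S, dist (p u) (a k) < η

variable {X : Type*} [MetricSpace X] (D : Data X)
variable {E : Type*} [NormedAddCommGroup E]

namespace Data

/-- The compact set attached to `φ`. -/
def K (φ : ℕ → ℕ) : Set X := closure (⋃ t ∈ {t | Below t φ}, D.C t)

lemma isCompact_K {φ : ℕ → ℕ} (hφ : Monotone φ) : IsCompact (D.K φ) := D.compK φ hφ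

lemma C_subset_K {t : List ℕ} {φ : ℕ → ℕ} (h : Below t φ) : D.C t ⊆ D.K φ := by
  refine Subset.trans ?_ subset_closure
  exact subset_biUnion_of_mem (u := D.C) h

/-- Exceeding nodes. -/
def EBad (h : X → E) (t : List ℕ) : Prop := ∃ x ∈ D.C t, 1 < ‖h x‖

/-- Nodes where `h` exceeds, but moderately. -/
def Exc (h : X → E) (t : List ℕ) : Prop := D.EBad h t ∧ ∀ x ∈ D.C t, ‖h x‖ < 5

/-- The second kind of bad nodes, with witness `e`. -/
def VBadW (h : X → E) (u e : List ℕ) : Prop :=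
  u <+: e ∧ D.Exc h e ∧ 1 / 2 < ‖h (D.p u)‖ ∧
    ∀ k ∈ Finset.range (Encodable.encode e), 5 ≤ ‖h (D.a k)‖ →
      1 - dist (D.p u) (D.a k) / 2 < ‖h (D.p u)‖

/-- The second kind of bad nodes. -/
def VBad (h : X → E) (u : List ℕ) : Prop := u ∈ D.V ∧ ∃ e, D.VBadW h u e

/-- Bad nodes. -/
def Bad (h : X → E) (t : List ℕ) : Prop := D.EBad h t ∨ D.VBad h t

/-- The closed set attached to `φ`. -/
def F (E : Type*) [NormedAddCommGroup E] (φ : ℕ → ℕ) : Set C(X, E) :=
  {h | ∀ t, Below t φ → ¬ D.Bad h t}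

lemma isOpen_EBad (t : List ℕ) : IsOpen {h : C(X, E) | D.EBad h t} := by
  have : {h : C(X, E) | D.EBad h t} = ⋃ x ∈ D.C t, {h : C(X, E) | 1 < ‖h x‖} := by
    ext h; simp [EBad]
  rw [this]
  exact isOpen_biUnion fun x _ =>
    isOpen_lt continuous_const (continuous_eval_const x).norm

lemma isOpen_Exc (t : List ℕ) : IsOpen {h : C(X, E) | D.Exc h t} := by
  have h1 : {h : C(X, E) | ∀ x ∈ D.C t, ‖h x‖ < 5} =
      {h : C(X, E) | MapsTo h (D.C t) (Metric.ball 0 5)} := by
    ext h; simp [MapsTo]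
  have h2 : IsOpen {h : C(X, E) | ∀ x ∈ D.C t, ‖h x‖ < 5} := by
    rw [h1]
    exact ContinuousMap.isOpen_setOfPred_mapsTo (D.compC t) Metric.isOpen_ball
  exact (D.isOpen_EBad t).inter h2

lemma isOpen_VBadW (u e : List ℕ) : IsOpen {h : C(X, E) | D.VBadW h u e} := by
  by_cases hue : u <+: e
  · have hp : ∀ c : ℝ, IsOpen {h : C(X, E) | c < ‖h (D.p u)‖} := fun c =>
      isOpen_lt continuous_const (continuous_eval_const _).norm
    have h3 : IsOpen (⋂ k ∈ Finset.range (Encodable.encode e),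
        ({h : C(X, E) | ‖h (D.a k)‖ < 5} ∪
          {h : C(X, E) | 1 - dist (D.p u) (D.a k) / 2 < ‖h (D.p u)‖})) := by
      refine isOpen_biInter_finset fun k _ => IsOpen.union ?_ (hp _)
      exact isOpen_lt (continuous_eval_const _).norm continuous_const
    have : {h : C(X, E) | D.VBadW h u e} =
        {h : C(X, E) | D.Exc h e} ∩ ({h : C(X, E) | 1 / 2 < ‖h (D.p u)‖} ∩
          (⋂ k ∈ Finset.range (Encodable.encode e),
            ({h : C(X, E) | ‖h (D.a k)‖ < 5} ∪
              {h : C(X, E) | 1 - dist (D.p u) (D.a k) / 2 < ‖h (D.p u)‖}))) := by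
      ext h
      simp only [VBadW, mem_ofPred_eq, mem_inter_iff, mem_iInter, mem_union, hue, true_and]
      refine and_congr Iff.rfl (and_congr Iff.rfl (forall_congr' fun k => forall_congr' fun _ => ?_))
      rw [← not_lt, ← or_iff_not_imp_left]
    rw [this]
    exact (D.isOpen_Exc e).inter ((hp _).inter h3)
  · have : {h : C(X, E) | D.VBadW h u e} = ∅ := by
      ext h; simp [VBadW, hue]
    rw [this]
    exact isOpen_empty

lemma isOpen_Bad (t : List ℕ) : IsOpen {h : C(X, E) | D.Bad h t} := by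
  have : {h : C(X, E) | D.VBad h t} =
      ⋃ e, ({h : C(X, E) | t ∈ D.V} ∩ {h : C(X, E) | D.VBadW h t e}) := by
    ext h
    simp [VBad]
  have h2 : IsOpen {h : C(X, E) | D.VBad h t} := by
    rw [this]
    exact isOpen_iUnion fun e => isOpen_const.inter (D.isOpen_VBadW t e)
  exact (D.isOpen_EBad t).union h2

lemma exists_EBad_of_Bad {h : X → E} {t : List ℕ} (ht : D.Bad h t) :
    ∃ e, t <+: e ∧ D.EBad h e := by
  rcases ht with ht | ⟨_, e, he, hx, _⟩
  · exact ⟨t, List.prefix_rfl, ht⟩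
  · exact ⟨e, he, hx.1⟩

/-- Along every branch: a bad initial segment, or no bad extension. -/
lemma bad_branch (g : C(X, E)) (y : ℕ → ℕ) :
    ∃ n, sec y n ∈ {t | D.Bad g t} ∨ ∀ b ∈ {t | D.Bad g t}, ¬ sec y n <+: b := by
  by_contra hcon
  push Not at hcon
  have key : ∀ n, ∃ e, sec y n <+: e ∧ D.EBad g e := by
    intro n
    obtain ⟨b, hb, hyb⟩ := (hcon n).2
    obtain ⟨e, hbe, he⟩ := D.exists_EBad_of_Bad hb
    exact ⟨e, hyb.trans hbe, he⟩
  have hnb : ∀ n, ¬ D.Bad g (sec y n) := fun n => (hcon n).1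
  rcases D.branch y with ⟨n, hn⟩ | ⟨x, hx, hV⟩
  · obtain ⟨e, hye, z, hz, hgz⟩ := key n
    exact hnb n (Or.inl ⟨z, hn e hye hz, hgz⟩)
  · -- first, `1 ≤ ‖g x‖`
    have hg1 : 1 ≤ ‖g x‖ := by
      by_contra hlt
      push Not at hlt
      have hU : IsOpen {z | ‖g z‖ < 1} := isOpen_lt g.continuous.norm continuous_const
      obtain ⟨ε, hε, hball⟩ := Metric.isOpen_iff.mp hU x hlt
      obtain ⟨n, hn⟩ := hx ε hε
      obtain ⟨e, hye, z, hz, hgz⟩ := key n
      have : ‖g z‖ < 1 := hball (hn e hye hz)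
      linarith
    rcases lt_or_eq_of_le hg1 with hg | hg
    · -- `1 < ‖g x‖`
      have hU : IsOpen {z | 1 < ‖g z‖} := isOpen_lt continuous_const g.continuous.norm
      obtain ⟨ε, hε, hball⟩ := Metric.isOpen_iff.mp hU x hg
      obtain ⟨n, hn⟩ := hx ε hε
      obtain ⟨m, hm, hmV⟩ := hV n
      have hp := D.pC _ hmV
      exact hnb m (Or.inl ⟨_, hp, hball (hn _ (sec_prefix_sec y hm) hp)⟩)
    · -- `‖g x‖ = 1`
      have hU : IsOpen {z | ‖g z‖ < 5} := isOpen_lt g.continuous.norm continuous_const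
      obtain ⟨ρ, hρ, hball⟩ := Metric.isOpen_iff.mp hU x (by
        change ‖g x‖ < 5
        rw [← hg]; norm_num)
      have hU2 : IsOpen {z | max (1 / 2) (1 - ρ / 4) < ‖g z‖} :=
        isOpen_lt continuous_const g.continuous.norm
      obtain ⟨σ, hσ, hball2⟩ := Metric.isOpen_iff.mp hU2 x (by
        change max (1 / 2) (1 - ρ / 4) < ‖g x‖
        rw [← hg, max_lt_iff]; constructor <;> linarith)
      obtain ⟨n, hn⟩ := hx (min σ (ρ / 2)) (lt_min hσ (by linarith))
      obtain ⟨m, hm, hmV⟩ := hV n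
      obtain ⟨e, hye, he⟩ := key m
      have hne : sec y n <+: e := (sec_prefix_sec y hm).trans hye
      have hp := D.pC _ hmV
      have hpb := hn _ (sec_prefix_sec y hm) hp
      have hpσ : D.p (sec y m) ∈ Metric.ball x σ :=
        Metric.ball_subset_ball (min_le_left _ _) hpb
      have hpρ : dist (D.p (sec y m)) x < ρ / 2 :=
        Metric.mem_ball.mp (Metric.ball_subset_ball (min_le_right _ _) hpb)
      have hgp := hball2 hpσ
      rw [mem_ofPred_eq, max_lt_iff] at hgp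
      refine hnb m (Or.inr ⟨hmV, e, hye, ⟨he, ?_⟩, hgp.1, ?_⟩)
      · intro z hz
        have hzb := hn e hne hz
        exact hball (Metric.ball_subset_ball ((min_le_right _ _).trans (by linarith)) hzb)
      · intro k _ hk
        have hak : ρ ≤ dist (D.a k) x := by
          by_contra hlt
          push Not at hlt
          have : ‖g (D.a k)‖ < 5 := hball (Metric.mem_ball.mpr hlt)
          linarith
        have htri : dist (D.a k) x ≤ dist (D.p (sec y m)) (D.a k) + dist (D.p (sec y m)) x := by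
          rw [dist_comm (D.p (sec y m)) (D.a k)]
          exact dist_triangle _ _ _
        linarith [hgp.2]

/-- Uniform closure preservation. -/
lemma exists_open_disjoint (g : C(X, E)) :
    ∃ O : Set C(X, E), IsOpen O ∧ g ∈ O ∧ ∀ φ, Monotone φ → g ∉ D.F E φ → Disjoint O (D.F E φ) := by
  obtain ⟨M, hM, hM2⟩ := exists_finset_below (D.bad_branch g)
  refine ⟨⋂ s ∈ M, {h : C(X, E) | D.Bad h s}, isOpen_biInter_finset fun s _ => D.isOpen_Bad s,
    ?_, ?_⟩
  · simp only [mem_iInter]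
    exact fun s hs => hM s hs
  · intro φ hφ hg
    have : ∃ t ∈ {t | D.Bad g t}, Below t φ := by
      by_contra hcon
      push Not at hcon
      exact hg fun t ht hbad => hcon t hbad ht
    obtain ⟨s, hs, hsφ⟩ := hM2 φ hφ this
    rw [Set.disjoint_left]
    intro h hh hF
    simp only [mem_iInter] at hh
    exact hF s hsφ (hh s hs)

lemma norm_le_one {φ : ℕ → ℕ} {h : C(X, E)} (hh : h ∈ D.F E φ) {x : X} (hx : x ∈ D.K φ) :
    ‖h x‖ ≤ 1 := by
  have hcl : IsClosed {x | ‖h x‖ ≤ 1} := isClosed_le h.continuous.norm continuous_const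
  refine closure_minimal ?_ hcl hx
  intro z hz
  simp only [mem_iUnion] at hz
  obtain ⟨t, ht, hz⟩ := hz
  by_contra hlt
  exact hh t ht (Or.inl ⟨z, hz, not_le.mp hlt⟩)

lemma mem_F_of_small {φ : ℕ → ℕ} {h : C(X, E)} (hh : ∀ x ∈ D.K φ, ‖h x‖ ≤ 1 / 2) :
    h ∈ D.F E φ := by
  intro t ht hbad
  have hC := D.C_subset_K ht
  rcases hbad with ⟨x, hx, hx1⟩ | ⟨htV, e, _, _, h2, _⟩
  · have := hh x (hC hx)
    linarith
  · have := hh _ (hC (D.pC t htV))
    linarith

end Data

end CkM1
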