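import Mathlib
import Pool.Agent.Lib.MP_12964e_gt.h39.Space

/-!
# The data for a complete separable metric space (MP_12964e_gt, helper39)
-/

set_option autoImplicit false

open Set Topology Filter

namespace CkM1

namespace Polish

variable {X : Type*} [MetricSpace X]

/-- Coherent nodes with respect to the sequence `a`. -/
def Coh (a : ℕ → X) (t : List ℕ) : Prop :=
  ∀ (i j : ℕ) (_ : i < j) (hj : j < t.length) (hi : i < t.length),
    dist (a t[i]) (a t[j]) ≤ (1 / 2) ^ i

/-- The ball of the node `t`. -/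
def B (a : ℕ → X) (t : List ℕ) : Set X :=
  Metric.closedBall (a (t.getLastD 0)) (4 * (1 / 2) ^ t.length)

/-- The points without compact neighbourhoods. -/
def Y (X : Type*) [MetricSpace X] : Set X := {x | ∀ K ∈ 𝓝 x, ¬ IsCompact K}

/-- The nodes of the second type. -/
def V (a : ℕ → X) : Set (List ℕ) :=
  {t | (t ≠ [] ∧ Coh a t) ∧ ¬ IsCompact (B a t) ∧ (B a t ∩ Y X).Nonempty}

open Classical in
/-- A point of `Y` in the ball of the node. -/
noncomputable def p (a : ℕ → X) (t : List ℕ) : X :=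
  if h : (B a t ∩ Y X).Nonempty then h.some else a 0

open Classical in
/-- The compact set of a node. -/
noncomputable def C (a : ℕ → X) (t : List ℕ) : Set X :=
  if (t ≠ [] ∧ Coh a t) ∧ IsCompact (B a t) then B a t
  else if t ∈ V a then {p a t} else ∅

variable {a : ℕ → X}

lemma p_mem {t : List ℕ} (h : (B a t ∩ Y X).Nonempty) : p a t ∈ B a t ∩ Y X := by
  rw [p, dif_pos h]
  exact h.some_mem

lemma C_of_compact {t : List ℕ} (h : t ≠ []) (h1 : Coh a t) (h2 : IsCompact (B a t)) :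
    C a t = B a t := if_pos ⟨⟨h, h1⟩, h2⟩

lemma C_of_V {t : List ℕ} (h : t ∈ V a) : C a t = {p a t} := by
  rw [C, if_neg (fun h2 => h.2.1 h2.2), if_pos h]

lemma isCompact_C (t : List ℕ) : IsCompact (C a t) := by
  rw [C]
  split_ifs with h1 h2
  · exact h1.2
  · exact isCompact_singleton
  · exact isCompact_empty

lemma C_subset {t : List ℕ} : C a t ⊆ B a t := by
  rw [C]
  split_ifs with h1 h2
  · exact Subset.rfl
  · exact singleton_subset_iff.mpr (p_mem h2.2.2).1
  · exact empty_subset _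

lemma coh_of_mem {t : List ℕ} {x : X} (h : x ∈ C a t) : t ≠ [] ∧ Coh a t := by
  rw [C] at h
  split_ifs at h with h1 h2
  · exact h1.1
  · exact h2.1
  · exact absurd h (notMem_empty _)

lemma Coh.mono {s t : List ℕ} (ht : Coh a t) (hs : s <+: t) : Coh a s := by
  intro i j hij hj hi
  have hl := hs.length_le
  have h1 := ht i j hij (hj.trans_le hl) (hi.trans_le hl)
  have e1 : s[i] = t[i] := hs.getElem hi
  have e2 : s[j] = t[j] := hs.getElem hj
  rw [e1, e2]
  exact h1

lemma getLastD_eq {t : List ℕ} (h : t ≠ []) :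
    t.getLastD 0 = t[t.length - 1]'(Nat.sub_lt (List.length_pos_iff.mpr h) one_pos) := by
  rw [List.getLastD_eq_getLast?, List.getLast?_eq_getLast_of_ne_nil h, Option.getD_some,
    List.getLast_eq_getElem]

lemma B_mono {s t : List ℕ} (hs : s ≠ []) (hst : s <+: t) (ht : Coh a t) : B a t ⊆ B a s := by
  rcases lt_or_eq_of_le hst.length_le with hlt | heq
  · have hpos : 0 < s.length := List.length_pos_iff.mpr hs
    have htne : t ≠ [] := by
      rintro rfl
      simp at hlt
    have hst' : s[s.length - 1]'(by omega) = t[s.length - 1]'(by omega) := hst.getElem _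
    have h1 : dist (a (s.getLastD 0)) (a (t.getLastD 0)) ≤ (1 / 2) ^ (s.length - 1) := by
      rw [getLastD_eq hs, getLastD_eq htne, hst']
      exact ht _ _ (by omega) (by omega) (by omega)
    have h2 : ((1 : ℝ) / 2) ^ (s.length - 1) = 2 * (1 / 2) ^ s.length := by
      conv_rhs => rw [← Nat.sub_add_cancel hpos, pow_succ]
      ring
    have h3 : ((1 : ℝ) / 2) ^ t.length ≤ (1 / 2) ^ (s.length + 1) :=
      pow_le_pow_of_le_one (by norm_num) (by norm_num) (by omega)
    rw [pow_succ] at h3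
    refine Metric.closedBall_subset_closedBall' ?_
    rw [dist_comm]
    rw [h2] at h1
    linarith
  · rw [hst.eq_of_length heq]

lemma exists_pow_lt' (c : ℝ) {ε : ℝ} (hε : 0 < ε) : ∃ n : ℕ, 1 ≤ n ∧ c * (1 / 2) ^ n < ε := by
  have h1 : Tendsto (fun n : ℕ => c * (1 / 2 : ℝ) ^ n) atTop (𝓝 (c * 0)) :=
    (tendsto_pow_atTop_nhds_zero_of_lt_one (by norm_num) (by norm_num)).const_mul c
  rw [mul_zero] at h1
  have h2 := (h1.eventually (gt_mem_nhds hε)).and (eventually_ge_atTop 1)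
  obtain ⟨n, hn1, hn2⟩ := h2.exists
  exact ⟨n, hn2, hn1⟩

lemma finite_below (φ : ℕ → ℕ) (n : ℕ) : {t : List ℕ | Below t φ ∧ t.length = n}.Finite := by
  induction n with
  | zero =>
    refine (Set.finite_singleton []).subset ?_
    rintro t ⟨_, ht⟩
    exact List.length_eq_zero_iff.mp ht
  | succ n ih =>
    refine ((ih.prod (Set.finite_Iic (φ n))).image (fun q : List ℕ × ℕ => q.1 ++ [q.2])).subset ?_
    rintro t ⟨ht, hl⟩
    have hn : n < t.length := by omega
    have h1 : t.take n ++ [t[n]] = t := by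
      rw [← List.take_succ_eq_append_getElem hn, List.take_of_length_le (by omega)]
    refine ⟨(t.take n, t[n]), ⟨⟨ht.mono_prefix (List.take_prefix _ _), ?_⟩, ht n hn⟩, h1⟩
    rw [List.length_take]
    omega

/-- The union over the nodes below `φ`. -/
def U (a : ℕ → X) (φ : ℕ → ℕ) : Set X := ⋃ t ∈ {t | Below t φ}, C a t

lemma isCompact_K [CompleteSpace X] (φ : ℕ → ℕ) : IsCompact (closure (U a φ)) := by
  refine TotallyBounded.isCompact_of_isClosed ?_ isClosed_closure
  refine TotallyBounded.closure ?_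
  rw [Metric.totallyBounded_iff]
  intro ε hε
  obtain ⟨n, hn1, hn⟩ := exists_pow_lt' 4 hε
  have hfin : {t : List ℕ | Below t φ ∧ t.length < n}.Finite := by
    refine ((Set.finite_lt_nat n).biUnion (fun m _ => finite_below φ m)).subset ?_
    rintro t ⟨ht, hl⟩
    exact mem_biUnion (show t.length ∈ {m | m < n} from hl) ⟨ht, rfl⟩
  have htb : TotallyBounded (⋃ t ∈ {t : List ℕ | Below t φ ∧ t.length < n}, C a t) :=
    (hfin.isCompact_biUnion fun t _ => isCompact_C t).totallyBounded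
  rw [Metric.totallyBounded_iff] at htb
  obtain ⟨T, hT, hT2⟩ := htb ε hε
  refine ⟨T ∪ a '' {i | i ≤ φ (n - 1)}, hT.union ((Set.finite_le_nat _).image _), ?_⟩
  intro x hx
  simp only [U, mem_iUnion, mem_ofPred_eq] at hx
  obtain ⟨t, ht, hxt⟩ := hx
  rcases lt_or_ge t.length n with hl | hl
  · have h1 : x ∈ ⋃ t ∈ {t : List ℕ | Below t φ ∧ t.length < n}, C a t :=
      mem_biUnion (show t ∈ {t : List ℕ | Below t φ ∧ t.length < n} from ⟨ht, hl⟩) hxt
    have h2 := hT2 h1
    simp only [mem_iUnion] at h2 ⊢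
    obtain ⟨z, hz, hxz⟩ := h2
    exact ⟨z, Or.inl hz, hxz⟩
  · have hcoh := coh_of_mem hxt
    have hpre : t.take n <+: t := List.take_prefix _ _
    have hlen : (t.take n).length = n := by rw [List.length_take]; omega
    have hne : t.take n ≠ [] := by
      intro h
      rw [h] at hlen
      simp at hlen
      omega
    have h1 : x ∈ B a (t.take n) := B_mono hne hpre hcoh.2 (C_subset hxt)
    have h2 : (t.take n).getLastD 0 ≤ φ (n - 1) := by
      have h3 := ht.mono_prefix hpre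
      rw [getLastD_eq hne]
      have h4 := h3 (n - 1) (by omega)
      simpa only [hlen] using h4
    simp only [mem_iUnion]
    refine ⟨a ((t.take n).getLastD 0), Or.inr ⟨_, h2, rfl⟩, ?_⟩
    have h3 : dist x (a ((t.take n).getLastD 0)) ≤ 4 * (1 / 2) ^ (t.take n).length := h1
    rw [hlen] at h3
    exact Metric.mem_ball.mpr (h3.trans_lt hn)

lemma getLastD_sec (y : ℕ → ℕ) (n : ℕ) : (sec y (n + 1)).getLastD 0 = y n := by
  rw [sec_succ]
  simp

lemma sec_ne_nil (y : ℕ → ℕ) {n : ℕ} (hn : 1 ≤ n) : sec y n ≠ [] := by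
  intro h
  have := congrArg List.length h
  simp at this
  omega

lemma mem_nhds_B {y : ℕ → ℕ} {x : X} {n : ℕ} (hn : 1 ≤ n)
    (hx : dist (a (y (n - 1))) x ≤ (1 / 2) ^ (n - 1)) : B a (sec y n) ∈ 𝓝 x := by
  obtain ⟨m, rfl⟩ : ∃ m, n = m + 1 := ⟨n - 1, by omega⟩
  rw [Nat.add_sub_cancel] at hx
  rw [B, getLastD_sec, length_sec]
  refine Filter.mem_of_superset (Metric.ball_mem_nhds x (ε := (1 / 2) ^ m) (by positivity)) ?_
  intro z hz
  have h1 : dist z x < (1 / 2) ^ m := hz
  have h2 : dist z (a (y m)) ≤ dist z x + dist (a (y m)) x := by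
    rw [dist_comm (a (y m)) x]
    exact dist_triangle _ _ _
  rw [Metric.mem_closedBall, pow_succ]
  linarith

lemma B_subset_closedBall {y : ℕ → ℕ} {x : X} {n : ℕ} (hn : 1 ≤ n) {ρ : ℝ}
    (hx : dist (a (y (n - 1))) x ≤ (1 / 2) ^ (n - 1)) (hρ : 8 * (1 / 2) ^ n < ρ) :
    B a (sec y n) ⊆ Metric.ball x ρ := by
  obtain ⟨m, rfl⟩ : ∃ m, n = m + 1 := ⟨n - 1, by omega⟩
  rw [Nat.add_sub_cancel] at hx
  rw [B, getLastD_sec, length_sec]
  intro z hz
  rw [Metric.mem_closedBall] at hz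
  have h2 : dist z x ≤ dist z (a (y m)) + dist (a (y m)) x := dist_triangle _ _ _
  rw [Metric.mem_ball]
  rw [pow_succ] at hρ hz
  have : (0 : ℝ) < (1 / 2) ^ m := by positivity
  linarith

lemma coh_sec_of {y : ℕ → ℕ} (h : ∀ i j, i < j → dist (a (y i)) (a (y j)) ≤ (1 / 2) ^ i) (n : ℕ) :
    Coh a (sec y n) := by
  intro i j hij hj hi
  rw [getElem_sec, getElem_sec]
  exact h i j hij

lemma of_coh_sec {y : ℕ → ℕ} (h : ∀ n, Coh a (sec y n)) {i j : ℕ} (hij : i < j) :
    dist (a (y i)) (a (y j)) ≤ (1 / 2) ^ i := by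
  have h1 := h (j + 1) i j hij (by simp) (by simp; omega)
  rw [getElem_sec, getElem_sec] at h1
  exact h1

/-- Good nodes near a point: compact ones. -/
lemma node_compact {y : ℕ → ℕ} {x : X} (hc : ∀ n, Coh a (sec y n))
    (hx : ∀ n, dist (a (y n)) x ≤ (1 / 2) ^ n) (hY : x ∉ Y X) :
    ∃ n, 1 ≤ n ∧ C a (sec y n) = B a (sec y n) ∧ B a (sec y n) ∈ 𝓝 x := by
  rw [Y, mem_ofPred_eq] at hY
  push Not at hY
  obtain ⟨K, hK, hKc⟩ := hY
  obtain ⟨ρ, hρ, hball⟩ := Metric.nhds_basis_ball.mem_iff.mp hK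
  obtain ⟨n, hn1, hn⟩ := exists_pow_lt' 8 hρ
  have h1 : B a (sec y n) ⊆ K := (B_subset_closedBall hn1 (hx _) hn).trans hball
  have h2 : IsCompact (B a (sec y n)) := hKc.of_isClosed_subset Metric.isClosed_closedBall h1
  exact ⟨n, hn1, C_of_compact (sec_ne_nil y hn1) (hc n) h2, mem_nhds_B hn1 (hx _)⟩

lemma node_V {y : ℕ → ℕ} {x : X} (hc : ∀ n, Coh a (sec y n))
    (hx : ∀ n, dist (a (y n)) x ≤ (1 / 2) ^ n) (hY : x ∈ Y X) {n : ℕ} (hn : 1 ≤ n) :
    sec y n ∈ V a := by
  have h1 := mem_nhds_B hn (hx (n - 1))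
  exact ⟨⟨sec_ne_nil y hn, hc n⟩, hY _ h1, ⟨x, mem_of_mem_nhds h1, hY⟩⟩

lemma cof (ha : DenseRange a) {L : Set X} (hL : IsCompact L) :
    ∃ φ, Monotone φ ∧ L ⊆ closure (U a φ) := by
  have h1 : ∀ n : ℕ, ∃ m : ℕ, ∀ x ∈ L, ∃ i ≤ m, dist (a i) x < (1 / 2) ^ (n + 1) := by
    intro n
    obtain ⟨T, hT⟩ := hL.elim_finite_subcover (fun i : ℕ => Metric.ball (a i) ((1 / 2) ^ (n + 1)))
      (fun i => Metric.isOpen_ball) (by
        intro x _
        obtain ⟨i, hi⟩ := ha.exists_dist_lt x (ε := (1 / 2) ^ (n + 1)) (by positivity)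
        exact mem_iUnion.mpr ⟨i, hi⟩)
    refine ⟨T.sup id, fun x hx => ?_⟩
    have h2 := hT hx
    simp only [mem_iUnion] at h2
    obtain ⟨i, hi, hxi⟩ := h2
    exact ⟨i, Finset.le_sup (f := id) hi, by rw [dist_comm]; exact hxi⟩
  choose m hm using h1
  set φ : ℕ → ℕ := fun n => ∑ j ∈ Finset.range (n + 1), m j with hφ
  have hφmono : Monotone φ := by
    intro i j hij
    exact Finset.sum_le_sum_of_subset (Finset.range_mono (by omega))
  have hmφ : ∀ n, m n ≤ φ n := fun n =>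
    Finset.single_le_sum (f := m) (fun _ _ => Nat.zero_le _) (Finset.mem_range.mpr (by omega))
  refine ⟨φ, hφmono, fun x hx => ?_⟩
  have hy : ∀ n, ∃ i, i ≤ φ n ∧ dist (a i) x < (1 / 2) ^ (n + 1) := by
    intro n
    obtain ⟨i, hi, hd⟩ := hm n x hx
    exact ⟨i, hi.trans (hmφ n), hd⟩
  choose y hy1 hy2 using hy
  have hc : ∀ n, Coh a (sec y n) := by
    refine coh_sec_of fun i j hij => ?_
    have h2 : dist (a (y i)) (a (y j)) ≤ dist (a (y i)) x + dist (a (y j)) x :=
      dist_triangle_right _ _ _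
    have h3 := hy2 i
    have h4 := hy2 j
    have h5 : ((1 : ℝ) / 2) ^ (j + 1) ≤ (1 / 2) ^ (i + 1) :=
      pow_le_pow_of_le_one (by norm_num) (by norm_num) (by omega)
    rw [pow_succ] at h3 h4 h5
    rw [pow_succ] at h5
    linarith
  have hx' : ∀ n, dist (a (y n)) x ≤ (1 / 2) ^ n := by
    intro n
    refine (hy2 n).le.trans ?_
    exact pow_le_pow_of_le_one (by norm_num) (by norm_num) (by omega)
  have hbel : ∀ n, Below (sec y n) φ := fun n => below_sec hy1 n
  by_cases hY : x ∈ Y X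
  · rw [Metric.mem_closure_iff]
    intro ε hε
    obtain ⟨n, hn1, hn⟩ := exists_pow_lt' 8 hε
    have hV := node_V hc hx' hY hn1
    refine ⟨p a (sec y n), mem_biUnion (show sec y n ∈ {t | Below t φ} from hbel n) ?_, ?_⟩
    · rw [C_of_V hV]; rfl
    · have h1 := B_subset_closedBall hn1 (hx' _) hn (p_mem hV.2.2).1
      rw [dist_comm]
      exact h1
  · obtain ⟨n, _, hC, hn⟩ := node_compact hc hx' hY
    refine subset_closure (mem_biUnion (show sec y n ∈ {t | Below t φ} from hbel n) ?_)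
    rw [hC]
    exact mem_of_mem_nhds hn

lemma branch [CompleteSpace X] (y : ℕ → ℕ) :
    (∃ n, ∀ e, sec y n <+: e → C a e ⊆ C a (sec y n)) ∨
    (∃ x, (∀ ε > 0, ∃ n, ∀ e, sec y n <+: e → C a e ⊆ Metric.ball x ε) ∧
      ∀ n, ∃ m ≥ n, sec y m ∈ V a) := by
  by_cases hc : ∀ n, Coh a (sec y n)
  · have hd : ∀ i j, i < j → dist (a (y i)) (a (y j)) ≤ (1 / 2) ^ i := fun i j hij =>
      of_coh_sec hc hij
    have hd' : ∀ i j, i ≤ j → dist (a (y i)) (a (y j)) ≤ (1 / 2) ^ i := by
      intro i j hij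
      rcases lt_or_eq_of_le hij with h | rfl
      · exact hd i j h
      · rw [dist_self]; positivity
    have hcau : CauchySeq fun n => a (y n) := by
      refine cauchySeq_of_le_geometric (1 / 2) 1 (by norm_num) fun n => ?_
      rw [one_mul]
      exact hd n (n + 1) (by omega)
    obtain ⟨x, hx⟩ := cauchySeq_tendsto_of_complete hcau
    have hx' : ∀ n, dist (a (y n)) x ≤ (1 / 2) ^ n := by
      intro n
      refine le_of_tendsto (tendsto_const_nhds.dist hx) ?_
      exact (eventually_ge_atTop n).mono fun j hj => hd' n j hj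
    by_cases hY : x ∈ Y X
    · right
      refine ⟨x, fun ε hε => ?_, fun n => ⟨n + 1, by omega, node_V hc hx' hY (by omega)⟩⟩
      obtain ⟨n, hn1, hn⟩ := exists_pow_lt' 8 hε
      refine ⟨n, fun e he z hz => ?_⟩
      exact B_subset_closedBall hn1 (hx' _) hn
        (B_mono (sec_ne_nil y hn1) he (coh_of_mem hz).2 (C_subset hz))
    · left
      obtain ⟨n, hn1, hC, _⟩ := node_compact hc hx' hY
      refine ⟨n, fun e he z hz => ?_⟩
      rw [hC]
      exact B_mono (sec_ne_nil y hn1) he (coh_of_mem hz).2 (C_subset hz)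
  · left
    push Not at hc
    obtain ⟨n, hn⟩ := hc
    refine ⟨n, fun e he z hz => ?_⟩
    exact absurd ((coh_of_mem hz).2.mono he) hn

lemma marker [CompleteSpace X] (ha : DenseRange a) (φ : ℕ → ℕ) {L : Set X} (hL : IsCompact L)
    {η : ℝ} (hη : 0 < η) : ∃ S : Finset ℕ,
    (∀ k ∈ S, a k ∉ closure (U a φ) ∪ L) ∧
      ∀ u ∈ V a, Below u φ → ∃ k ∈ S, dist (p a u) (a k) < η := by
  classical
  set W : Set (List ℕ) := {u | u ∈ V a ∧ Below u φ} with hW
  have hWK : p a '' W ⊆ closure (U a φ) := by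
    rintro _ ⟨u, ⟨hu, hφ⟩, rfl⟩
    refine subset_closure (mem_biUnion (show u ∈ {t | Below t φ} from hφ) ?_)
    rw [C_of_V hu]; rfl
  have htb : TotallyBounded (p a '' W) := TotallyBounded.subset hWK (isCompact_K φ).totallyBounded
  obtain ⟨T, hTsub, hTfin, hT⟩ :=
    Metric.finite_approx_of_totallyBounded htb (η / 2) (by linarith)
  have hk : ∀ x ∈ T, ∃ k, a k ∉ closure (U a φ) ∪ L ∧ dist x (a k) < η / 2 := by
    intro x hx
    obtain ⟨u, ⟨hu, _⟩, rfl⟩ := hTsub hx
    have hY := (p_mem hu.2.2).2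
    have hKL : IsCompact (closure (U a φ) ∪ L) := (isCompact_K φ).union hL
    have hne : (Metric.ball (p a u) (η / 2) \ (closure (U a φ) ∪ L)).Nonempty := by
      rw [Set.nonempty_iff_ne_empty]
      intro hemp
      rw [Set.sdiff_eq_empty] at hemp
      exact hY _ (Filter.mem_of_superset (Metric.ball_mem_nhds _ (by linarith)) hemp) hKL
    have hopen : IsOpen (Metric.ball (p a u) (η / 2) \ (closure (U a φ) ∪ L)) :=
      Metric.isOpen_ball.sdiff hKL.isClosed
    obtain ⟨k, hk⟩ := ha.exists_mem_open hopen hne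
    exact ⟨k, hk.2, by rw [dist_comm]; exact hk.1⟩
  choose! κ hκ1 hκ2 using hk
  refine ⟨hTfin.toFinset.image κ, ?_, ?_⟩
  · intro k hk
    obtain ⟨x, hx, rfl⟩ := Finset.mem_image.mp hk
    exact hκ1 x (hTfin.mem_toFinset.mp hx)
  · intro u hu hφ
    have h1 : p a u ∈ p a '' W := ⟨u, ⟨hu, hφ⟩, rfl⟩
    have h2 := hT h1
    simp only [mem_iUnion] at h2
    obtain ⟨x, hx, hux⟩ := h2
    refine ⟨κ x, Finset.mem_image_of_mem _ (hTfin.mem_toFinset.mpr hx), ?_⟩
    have h3 : dist (p a u) x < η / 2 := hux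
    have h4 := hκ2 x hx
    linarith [dist_triangle (p a u) x (a (κ x))]

/-- The data of a complete separable metric space. -/
noncomputable def data [CompleteSpace X] (a : ℕ → X) (ha : DenseRange a) : Data X where
  C := C a
  V := V a
  p := p a
  a := a
  compC := isCompact_C
  pC := fun t ht => by rw [C_of_V ht]; rfl
  compK := fun φ _ => isCompact_K φ
  cof := fun _ hL => cof ha hL
  branch := branch
  marker := fun φ _ _ hL _ hη => marker ha φ hL hη

end Polish

end CkM1
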