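import Mathlib
import Pool.Agent.Lib.MP_12964e_gt.h39.Space
import Pool.Agent.Lib.MP_12964e_gt.h39.Polish

section

/-!
# The sets `F φ` are regular closed (MP_12964e_gt, helper39)
-/

set_option autoImplicit false

open Set Topology Filter

namespace CkM1

/-- Piecewise linear function: `-1` up to `1`, and `1` from `5` on. -/
noncomputable def clamp (a : ℝ) : ℝ := max (-1) (min 1 ((a - 3) / 2))

lemma abs_clamp_le (a : ℝ) : |clamp a| ≤ 1 := by
  rw [abs_le, clamp]
  exact ⟨le_max_left _ _, max_le (by norm_num) (min_le_left _ _)⟩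

lemma clamp_of_le {a : ℝ} (h : a ≤ 1) : clamp a = -1 := by
  rw [clamp, min_eq_right (by linarith), max_eq_left (by linarith)]

lemma clamp_of_ge {a : ℝ} (h : 5 ≤ a) : clamp a = 1 := by
  rw [clamp, min_eq_left (by linarith), max_eq_right (by linarith)]

lemma continuous_clamp : Continuous clamp := by
  unfold clamp
  fun_prop

section

variable {X : Type*} [TopologicalSpace X] {E : Type*} [NormedAddCommGroup E]

lemma nhds_basis_ck (h : C(X, E)) :
    (𝓝 h).HasBasis (fun q : Set X × ℝ => IsCompact q.1 ∧ 0 < q.2)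
      (fun q => {g : C(X, E) | ∀ x ∈ q.1, ‖g x - h x‖ < q.2}) := by
  have h1 := nhds_basis_uniformity
    (Metric.uniformity_basis_dist.compactConvergenceUniformity (α := X) (β := E)) (x := h)
  refine h1.congr (fun _ => Iff.rfl) (fun q _ => ?_)
  ext g
  simp [dist_eq_norm]

variable [NormedSpace ℝ E]

/-- The modification `(1 + η c(‖h‖)) h` of `h`. -/
noncomputable def modf (η : ℝ) (h : C(X, E)) : C(X, E) where
  toFun x := (1 + η * clamp ‖h x‖) • h x
  continuous_toFun := by
    have := continuous_clamp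
    fun_prop

lemma modf_apply (η : ℝ) (h : C(X, E)) (x : X) : modf η h x = (1 + η * clamp ‖h x‖) • h x := rfl

lemma norm_modf_sub {η : ℝ} (hη : 0 ≤ η) (h : C(X, E)) (x : X) :
    ‖modf η h x - h x‖ ≤ η * ‖h x‖ := by
  have : modf η h x - h x = (η * clamp ‖h x‖) • h x := by
    rw [modf_apply, add_smul, one_smul, add_sub_cancel_left]
  rw [this, norm_smul, Real.norm_eq_abs, abs_mul, abs_of_nonneg hη]
  have h1 := abs_clamp_le ‖h x‖
  have h2 := norm_nonneg (h x)
  have : η * |clamp ‖h x‖| ≤ η * 1 := mul_le_mul_of_nonneg_left h1 hη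
  nlinarith

lemma norm_modf_of_le {η : ℝ} (hη1 : η ≤ 1) (h : C(X, E)) {x : X}
    (hx : ‖h x‖ ≤ 1) : ‖modf η h x‖ = (1 - η) * ‖h x‖ := by
  rw [modf_apply, clamp_of_le hx, norm_smul, Real.norm_eq_abs, abs_of_nonneg (by linarith)]
  ring

lemma norm_modf_of_ge {η : ℝ} (hη : 0 ≤ η) (h : C(X, E)) {x : X}
    (hx : 5 ≤ ‖h x‖) : ‖modf η h x‖ = (1 + η) * ‖h x‖ := by
  rw [modf_apply, clamp_of_ge hx, norm_smul, Real.norm_eq_abs, abs_of_nonneg (by linarith)]
  ring

end

variable {X : Type*} [MetricSpace X] (D : Data X)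
variable {E : Type*} [NormedAddCommGroup E] [NormedSpace ℝ E]

namespace Data

/-- The core of the argument: every function near `h'` on the large compact set is in `F φ`. -/
lemma near_mem_F {φ : ℕ → ℕ} {h : C(X, E)} (hh : h ∈ D.F E φ) {η : ℝ} (hη : 0 < η)
    (hη1 : η ≤ 1 / 2) {S : Finset ℕ} {N : ℕ} (hSN : ∀ k ∈ S, k < N)
    (hS2 : ∀ u ∈ D.V, Below u φ → ∃ k ∈ S, dist (D.p u) (D.a k) < η)
    {h' : C(X, E)}
    (hK : ∀ x ∈ D.K φ, h' x = modf η h x)
    (hC : ∀ e, Encodable.encode e < N → (∀ k ∈ S, D.a k ∉ D.C e) → ∀ x ∈ D.C e,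
      h' x = modf η h x)
    (ha : ∀ k, k < N → D.a k ∉ D.a '' (S : Set ℕ) → h' (D.a k) = modf η h (D.a k))
    (hS : ∀ k ∈ S, ‖h' (D.a k)‖ = 6)
    {h'' : C(X, E)}
    (h1 : ∀ x ∈ D.K φ, ‖h'' x - h' x‖ < η / 4)
    (h2 : ∀ e, Encodable.encode e < N → ∀ x ∈ D.C e, ‖h'' x - h' x‖ < η / 4)
    (h3 : ∀ k, k < N → ‖h'' (D.a k) - h' (D.a k)‖ < η / 4) :
    h'' ∈ D.F E φ := by
  intro t ht hbad
  have hle : ∀ {x : X} {g₁ g₂ : C(X, E)} {c : ℝ}, ‖g₁ x - g₂ x‖ < c → ‖g₁ x‖ < ‖g₂ x‖ + c := by
    intro x g₁ g₂ c hc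
    have := norm_sub_norm_le (g₁ x) (g₂ x)
    linarith
  have hge : ∀ {x : X} {g₁ g₂ : C(X, E)} {c : ℝ}, ‖g₁ x - g₂ x‖ < c → ‖g₂ x‖ < ‖g₁ x‖ + c := by
    intro x g₁ g₂ c hc
    have := norm_sub_norm_le (g₂ x) (g₁ x)
    rw [norm_sub_rev] at this
    linarith
  have hCK := D.C_subset_K ht
  -- values of `h''` on `K`
  have hKval : ∀ x ∈ D.K φ, ‖h'' x‖ < (1 - η) * ‖h x‖ + η / 4 := by
    intro x hx
    have e1 := hle (h1 x hx)
    rw [hK x hx, norm_modf_of_le (by linarith) h (D.norm_le_one hh hx)] at e1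
    exact e1
  have hmark : ∀ k ∈ S, 5 ≤ ‖h'' (D.a k)‖ := by
    intro k hk
    have := hge (h3 k (hSN k hk))
    rw [hS k hk] at this
    linarith
  rcases hbad with ⟨x, hx, hx1⟩ | ⟨htV, e, hte, ⟨⟨x, hx, hx1⟩, hexc⟩, hhalf, hm⟩
  · have e1 := hKval x (hCK hx)
    have e2 := D.norm_le_one hh (hCK hx)
    nlinarith [norm_nonneg (h x)]
  · have hpK : D.p t ∈ D.K φ := hCK (D.pC t htV)
    have e1 := hKval _ hpK
    have e2 := D.norm_le_one hh hpK
    have e0 := norm_nonneg (h (D.p t))
    rcases lt_or_ge (Encodable.encode e) N with heN | heN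
    · -- Case 2
      have hdis : ∀ k ∈ S, D.a k ∉ D.C e := by
        intro k hk hmem
        have := hexc _ hmem
        have := hmark k hk
        linarith
      have hval : ∀ z ∈ D.C e, h' z = modf η h z := hC e heN hdis
      -- `e` is exceeding for `h`
      have hE : D.EBad h e := by
        refine ⟨x, hx, ?_⟩
        by_contra hlt
        push Not at hlt
        have e3 := hle (h2 e heN x hx)
        rw [hval x hx, norm_modf_of_le (by linarith) h hlt] at e3
        nlinarith [norm_nonneg (h x)]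
      have hExc : D.Exc h e := by
        refine ⟨hE, fun z hz => ?_⟩
        by_contra hlt
        push Not at hlt
        have e3 := hge (h2 e heN z hz)
        rw [hval z hz, norm_modf_of_ge hη.le h hlt] at e3
        have e4 := hexc z hz
        nlinarith
      by_cases hhalf' : 1 / 2 < ‖h (D.p t)‖
      · -- there must be a marker of `h`
        have hnb : ¬ D.VBad h t := fun hv => hh t ht (Or.inr hv)
        have : ∃ k ∈ Finset.range (Encodable.encode e), 5 ≤ ‖h (D.a k)‖ ∧
            ‖h (D.p t)‖ ≤ 1 - dist (D.p t) (D.a k) / 2 := by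
          by_contra hcon
          push Not at hcon
          exact hnb ⟨htV, e, hte, hExc, hhalf', hcon⟩
        obtain ⟨k, hk, hk5, hkle⟩ := this
        have hkN : k < N := (Finset.mem_range.mp hk).trans heN
        have hk5' : 5 ≤ ‖h'' (D.a k)‖ := by
          by_cases hkS : D.a k ∈ D.a '' (S : Set ℕ)
          · obtain ⟨l, hl, hlk⟩ := hkS
            rw [← hlk]
            exact hmark l hl
          · have e3 := hge (h3 k hkN)
            rw [ha k hkN hkS, norm_modf_of_ge hη.le h hk5] at e3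
            nlinarith
        have e4 := hm k hk hk5'
        nlinarith
      · push Not at hhalf'
        nlinarith
    · -- Case 1
      obtain ⟨k, hk, hkd⟩ := hS2 t htV ht
      have hk' : k ∈ Finset.range (Encodable.encode e) :=
        Finset.mem_range.mpr ((hSN k hk).trans_le heN)
      have e4 := hm k hk' (hmark k hk)
      nlinarith

omit [NormedSpace ℝ E] in
lemma F_eq_univ_of_subsingleton [Subsingleton E] (φ : ℕ → ℕ) : D.F E φ = univ := by
  ext h
  simp only [mem_univ, iff_true]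
  intro t _ hbad
  obtain ⟨e, _, x, _, hx⟩ := D.exists_EBad_of_Bad hbad
  rw [Subsingleton.elim (h x) 0, norm_zero] at hx
  linarith

theorem F_subset_closure_interior {φ : ℕ → ℕ} (hφ : Monotone φ) :
    D.F E φ ⊆ closure (interior (D.F E φ)) := by
  classical
  rcases subsingleton_or_nontrivial E with hE | hE
  · rw [D.F_eq_univ_of_subsingleton, interior_univ, closure_univ]
  intro h hh
  rw [mem_closure_iff_nhds_basis (nhds_basis_ck h)]
  rintro ⟨L, ε⟩ ⟨hL, hε⟩
  simp only at hL hε
  obtain ⟨w, hw⟩ := exists_norm_eq E (c := 6) (by norm_num)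
  -- the number `η`
  obtain ⟨R₀, hR₀⟩ := hL.exists_bound_of_continuousOn h.continuous.continuousOn
  set R := max R₀ 1 with hR
  have hRpos : 0 < R := lt_of_lt_of_le one_pos (le_max_right _ _)
  set η := min (1 / 2) (ε / (2 * R)) with hηdef
  have hη : 0 < η := lt_min (by norm_num) (by positivity)
  have hη1 : η ≤ 1 / 2 := min_le_left _ _
  have hηR : η * R < ε := by
    have : η ≤ ε / (2 * R) := min_le_right _ _
    calc η * R ≤ ε / (2 * R) * R := mul_le_mul_of_nonneg_right this hRpos.le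
      _ = ε / 2 := by field_simp
      _ < ε := by linarith
  -- markers
  obtain ⟨S, hS1, hS2⟩ := D.marker φ hφ L hL η hη
  set N := S.sup id + 1 with hN
  have hSN : ∀ k ∈ S, k < N := fun k hk => Nat.lt_succ_of_le (Finset.le_sup (f := id) hk)
  set AS : Set X := D.a '' (S : Set ℕ) with hAS
  have hASfin : AS.Finite := (Finset.finite_toSet S).image _
  set J : Set (List ℕ) := {e | Encodable.encode e < N} with hJ
  have hJfin : J.Finite :=
    (Set.finite_lt_nat N).preimage (Encodable.encode_injective.injOn)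
  set J' : Set (List ℕ) := {e | Encodable.encode e < N ∧ ∀ k ∈ S, D.a k ∉ D.C e} with hJ'
  have hJ'fin : J'.Finite := hJfin.subset fun e he => he.1
  set P : Set X := D.a '' {k | k < N} with hP
  have hPfin : P.Finite := (Set.finite_lt_nat N).image _
  set Z : Set X := ((D.K φ ∪ L) ∪ ⋃ e ∈ J', D.C e) ∪ (P \ AS) with hZ
  have hZclosed : IsClosed Z := by
    refine ((IsClosed.union isClosed_closure hL.isClosed).union ?_).union ?_
    · exact hJ'fin.isClosed_biUnion fun e _ => (D.compC e).isClosed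
    · exact (hPfin.subset sdiff_subset).isClosed
  have hdisj : Disjoint Z AS := by
    rw [Set.disjoint_right]
    rintro _ ⟨k, hk, rfl⟩ hkZ
    rcases hkZ with (hkZ | hkZ) | hkZ
    · exact hS1 k hk hkZ
    · simp only [mem_iUnion] at hkZ
      obtain ⟨e, he, hke⟩ := hkZ
      exact he.2 k hk hke
    · exact hkZ.2 ⟨k, hk, rfl⟩
  obtain ⟨χ, hχ0, hχ1, -⟩ := exists_continuous_zero_one_of_isClosed hZclosed hASfin.isClosed hdisj
  set h' : C(X, E) :=
    { toFun := fun x => modf η h x + χ x • (w - modf η h x)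
      continuous_toFun := by fun_prop } with hh'
  have hh'Z : ∀ x ∈ Z, h' x = modf η h x := by
    intro x hx
    have : χ x = 0 := hχ0 hx
    change modf η h x + χ x • (w - modf η h x) = modf η h x
    rw [this, zero_smul, add_zero]
  have hh'A : ∀ x ∈ AS, h' x = w := by
    intro x hx
    have : χ x = 1 := hχ1 hx
    change modf η h x + χ x • (w - modf η h x) = w
    rw [this, one_smul, add_sub_cancel]
  refine ⟨h', ?_, ?_⟩
  · -- `h'` is in the interior
    rw [mem_interior_iff_mem_nhds, (nhds_basis_ck h').mem_iff]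
    refine ⟨(D.K φ ∪ (⋃ e ∈ J, D.C e) ∪ P, η / 4), ⟨?_, by simp only; linarith⟩, ?_⟩
    · exact ((D.isCompact_K hφ).union (hJfin.isCompact_biUnion fun e _ => D.compC e)).union
        hPfin.isCompact
    · intro h'' hh''
      simp only [mem_ofPred_eq] at hh''
      refine D.near_mem_F hh hη hη1 hSN hS2 (h' := h') ?_ ?_ ?_ ?_ ?_ ?_ ?_
      · exact fun x hx => hh'Z x (Or.inl (Or.inl (Or.inl hx)))
      · intro e he hd x hx
        exact hh'Z x (Or.inl (Or.inr (mem_biUnion (show e ∈ J' from ⟨he, hd⟩) hx)))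
      · intro k hk hkS
        exact hh'Z _ (Or.inr ⟨⟨k, hk, rfl⟩, hkS⟩)
      · intro k hk
        rw [hh'A _ ⟨k, hk, rfl⟩, hw]
      · exact fun x hx => hh'' x (Or.inl (Or.inl hx))
      · intro e he x hx
        exact hh'' x (Or.inl (Or.inr (mem_biUnion (show e ∈ J from he) hx)))
      · intro k hk
        exact hh'' _ (Or.inr ⟨k, hk, rfl⟩)
  · -- `h'` is close to `h` on `L`
    intro x hx
    rw [hh'Z x (Or.inl (Or.inl (Or.inr hx)))]
    refine lt_of_le_of_lt (norm_modf_sub hη.le h x) ?_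
    have hxR : ‖h x‖ ≤ R := (hR₀ x hx).trans (le_max_left _ _)
    exact lt_of_le_of_lt (mul_le_mul_of_nonneg_left hxR hη.le) hηR

end Data

end CkM1
end

section

/-!
# The sigma-closure-preserving base of `C_k(X, E)` (MP_12964e_gt, helper39)
-/

set_option autoImplicit false

open Set Topology Filter

namespace CkM1

/-- Sufficient condition for closure preservation. -/
lemma cp_of_nhds {Z : Type*} [TopologicalSpace Z] {𝓑 : Set (Set Z)}
    (h : ∀ g : Z, ∃ O : Set Z, IsOpen O ∧ g ∈ O ∧ ∀ s ∈ 𝓑, g ∉ closure s → Disjoint O s) :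
    ∀ Q ⊆ 𝓑, closure (⋃₀ Q) = ⋃₀ (closure '' Q) := by
  intro Q hQ
  apply Subset.antisymm
  · intro g hg
    by_contra hcon
    obtain ⟨O, hO, hgO, hdis⟩ := h g
    obtain ⟨z, hzO, s, hs, hzs⟩ := mem_closure_iff.mp hg O hO hgO
    refine Set.disjoint_left.mp (hdis s (hQ hs) fun hgs => hcon ?_) hzO hzs
    exact ⟨closure s, mem_image_of_mem _ hs, hgs⟩
  · rintro g ⟨_, ⟨s, hs, rfl⟩, hg⟩
    exact closure_mono (subset_sUnion_of_mem hs) hg

section Dense

variable {X : Type*} [MetricSpace X] {E : Type*} [NormedAddCommGroup E] [NormedSpace ℝ E]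

/-- The tent functions. -/
noncomputable def tent (a : ℕ → X) (r : ℝ) (i : ℕ) (x : X) : ℝ := max 0 (r - dist x (a i))

/-- The approximating functions. -/
noncomputable def apx (a : ℕ → X) (b : ℕ → E) (k m : ℕ) (j : Fin m → ℕ) : C(X, E) where
  toFun x := ∑ i : Fin m, (tent a (1 / ((k : ℝ) + 1)) i x /
    max (1 / ((k : ℝ) + 1) / 2) (∑ l : Fin m, tent a (1 / ((k : ℝ) + 1)) l x)) • b (j i)
  continuous_toFun := by
    unfold tent
    refine continuous_finsetSum _ fun i _ => Continuous.smul (Continuous.div ?_ ?_ ?_)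
      continuous_const
    · fun_prop
    · fun_prop
    · intro x
      have : (0 : ℝ) < 1 / ((k : ℝ) + 1) / 2 := by positivity
      exact (lt_max_of_lt_left this).ne'

lemma apx_dense {a : ℕ → X} (ha : DenseRange a) {b : ℕ → E} (hb : DenseRange b) (h : C(X, E))
    {L : Set X} (hL : IsCompact L) {ε : ℝ} (hε : 0 < ε) :
    ∃ k m, ∃ j : Fin m → ℕ, ∀ x ∈ L, ‖apx a b k m j x - h x‖ < ε := by
  -- radius
  have h1 := hL.uniformContinuousAt_of_continuousAt h (fun x _ => h.continuous.continuousAt)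
    (Metric.dist_mem_uniformity (show (0 : ℝ) < ε / 4 by linarith))
  obtain ⟨δ, hδ, hδ2⟩ := Metric.mem_uniformity_dist.mp h1
  obtain ⟨k, hk⟩ := exists_nat_one_div_lt hδ
  set r : ℝ := 1 / ((k : ℝ) + 1) with hr
  have hrpos : 0 < r := by positivity
  have hrδ : ∀ x ∈ L, ∀ z, dist x z < r → dist (h x) (h z) < ε / 4 := by
    intro x hx z hxz
    exact hδ2 (hxz.trans hk) hx
  -- number of balls
  obtain ⟨T, hT⟩ := hL.elim_finite_subcover (fun i : ℕ => Metric.ball (a i) (r / 2))
    (fun i => Metric.isOpen_ball) (by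
      intro x _
      obtain ⟨i, hi⟩ := ha.exists_dist_lt x (ε := r / 2) (by positivity)
      exact mem_iUnion.mpr ⟨i, hi⟩)
  set m := T.sup id + 1 with hm
  have hTm : ∀ i ∈ T, i < m := fun i hi => Nat.lt_succ_of_le (Finset.le_sup (f := id) hi)
  have hj : ∀ i : Fin m, ∃ j, dist (h (a i)) (b j) < ε / 4 := fun i =>
    hb.exists_dist_lt (h (a i)) (by linarith)
  choose j hj using hj
  refine ⟨k, m, j, fun x hx => ?_⟩
  set s : ℝ := ∑ l : Fin m, tent a r l x with hs
  have htent : ∀ i : ℕ, 0 ≤ tent a r i x := fun i => le_max_left _ _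
  have hsge : r / 2 ≤ s := by
    have h2 := hT hx
    simp only [mem_iUnion] at h2
    obtain ⟨i, hi, hxi⟩ := h2
    have h3 : r / 2 ≤ tent a r i x := by
      refine le_trans ?_ (le_max_right _ _)
      have : dist x (a i) < r / 2 := hxi
      linarith
    refine h3.trans ?_
    exact Finset.single_le_sum (f := fun l : Fin m => tent a r l x) (fun l _ => htent l)
      (Finset.mem_univ (⟨i, hTm i hi⟩ : Fin m))
  have hspos : 0 < s := by linarith
  have happ : apx a b k m j x = ∑ i : Fin m, (tent a r i x / s) • b (j i) := by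
    change ∑ i : Fin m, (tent a (1 / ((k : ℝ) + 1)) i x /
      max (1 / ((k : ℝ) + 1) / 2) (∑ l : Fin m, tent a (1 / ((k : ℝ) + 1)) l x)) • b (j i) = _
    rw [← hr, ← hs, max_eq_right hsge]
  have hone : ∑ i : Fin m, tent a r i x / s = 1 := by
    rw [← Finset.sum_div, ← hs, div_self hspos.ne']
  have hsub : apx a b k m j x - h x = ∑ i : Fin m, (tent a r i x / s) • (b (j i) - h x) := by
    rw [happ]
    simp only [smul_sub, Finset.sum_sub_distrib]
    rw [← Finset.sum_smul, hone, one_smul]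
  rw [hsub]
  have hle : ‖∑ i : Fin m, (tent a r i x / s) • (b (j i) - h x)‖ ≤
      ∑ i : Fin m, (tent a r i x / s) * (ε / 2) := by
    refine norm_sum_le_of_le _ fun i _ => ?_
    rw [norm_smul, Real.norm_eq_abs, abs_of_nonneg (div_nonneg (htent i) hspos.le)]
    rcases (htent i).eq_or_lt with h0 | h0
    · rw [← h0]; simp
    · refine mul_le_mul_of_nonneg_left ?_ (div_nonneg h0.le hspos.le)
      have hd : dist x (a i) < r := by
        by_contra hcon
        push Not at hcon
        have : tent a r i x = 0 := max_eq_left (by linarith)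
        linarith
      have e1 := hrδ x hx _ hd
      have e2 := hj i
      have e3 : dist (b (j i)) (h x) ≤ dist (h x) (h (a i)) + dist (h (a i)) (b (j i)) := by
        rw [dist_comm (b (j i))]
        exact dist_triangle _ _ _
      rw [← dist_eq_norm]
      linarith
  refine hle.trans_lt ?_
  rw [← Finset.sum_mul, hone]
  linarith

end Dense

/-- The conclusion: a sigma-closure-preserving open base. -/
def IsM1 (Z : Type*) [TopologicalSpace Z] : Prop :=
  ∃ B : ℕ → Set (Set Z),
    (∀ n, ∀ Q ⊆ B n, closure (⋃₀ Q) = ⋃₀ (closure '' Q)) ∧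
    TopologicalSpace.IsTopologicalBasis (⋃ n, B n)

section Main

variable {X : Type*} [MetricSpace X] (D : Data X) {E : Type*} [NormedAddCommGroup E]
  [NormedSpace ℝ E]

/-- The affine homeomorphism `g ↦ 2 ^ n (g - d)`. -/
noncomputable def aff (d : C(X, E)) (n : ℕ) : C(X, E) ≃ₜ C(X, E) :=
  (Homeomorph.subRight d).trans (Homeomorph.smulOfNeZero ((2 : ℝ) ^ n) (by positivity))

lemma aff_apply (d : C(X, E)) (n : ℕ) (g : C(X, E)) (x : X) :
    aff d n g x = (2 : ℝ) ^ n • (g x - d x) := rfl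

/-- The base families. -/
def fam (d : C(X, E)) (n : ℕ) : Set (Set C(X, E)) :=
  {s | ∃ φ, Monotone φ ∧ s = aff d n ⁻¹' interior (D.F E φ)}

lemma fam_cp (d : C(X, E)) (n : ℕ) :
    ∀ Q ⊆ fam D d n, closure (⋃₀ Q) = ⋃₀ (closure '' Q) := by
  apply cp_of_nhds
  intro g
  obtain ⟨O, hO, hgO, hdis⟩ := D.exists_open_disjoint (aff d n g)
  refine ⟨aff d n ⁻¹' O, hO.preimage (aff d n).continuous, hgO, ?_⟩
  rintro _ ⟨φ, hφ, rfl⟩ hg
  have h1 : aff d n g ∉ D.F E φ := by
    intro hmem
    apply hg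
    rw [← (aff d n).preimage_closure]
    exact D.F_subset_closure_interior hφ hmem
  exact ((hdis φ hφ h1).mono_right interior_subset).preimage _

include D in
theorem main {a : ℕ → X} (ha : DenseRange a) {b : ℕ → E} (hb : DenseRange b) : IsM1 C(X, E) := by
  obtain ⟨f, hf⟩ := exists_surjective_nat ((ℕ × (Σ m, Fin m → ℕ)) × ℕ)
  refine ⟨fun n => fam D (apx a b (f n).1.1 (f n).1.2.1 (f n).1.2.2) (f n).2, fun n =>
    fam_cp D _ _, ?_⟩
  refine TopologicalSpace.isTopologicalBasis_of_isOpen_of_nhds ?_ ?_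
  · intro s hs
    obtain ⟨n, φ, _, rfl⟩ := mem_iUnion.mp hs
    exact isOpen_interior.preimage (aff _ _).continuous
  · intro g U hgU hU
    obtain ⟨⟨L, ε⟩, ⟨hL, hε⟩, hsub⟩ := (nhds_basis_ck g).mem_iff.mp (hU.mem_nhds hgU)
    simp only at hL hε hsub
    obtain ⟨φ, hφ, hLφ⟩ := D.cof L hL
    obtain ⟨n, _, hn⟩ := Polish.exists_pow_lt' 2 hε
    have hpos : (0 : ℝ) < (1 / 2) ^ n := by positivity
    obtain ⟨k, m, j, hj⟩ := apx_dense ha hb g (D.isCompact_K hφ)
      (show (0 : ℝ) < (1 / 2) ^ n / 2 by positivity)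
    obtain ⟨q, hq⟩ := hf ((k, ⟨m, j⟩), n)
    have hpow : ((2 : ℝ) ^ n) * (1 / 2) ^ n = 1 := by
      rw [← mul_pow]; norm_num
    refine ⟨aff (apx a b k m j) n ⁻¹' interior (D.F E φ), ?_, ?_, ?_⟩
    · have hmem : aff (apx a b k m j) n ⁻¹' interior (D.F E φ) ∈ fam D (apx a b k m j) n :=
        ⟨φ, hφ, rfl⟩
      refine mem_iUnion.mpr ⟨q, ?_⟩
      rw [hq]
      exact hmem
    · have hopen : IsOpen {h : C(X, E) | MapsTo h (D.K φ) (Metric.ball 0 (1 / 2))} :=
        ContinuousMap.isOpen_setOfPred_mapsTo (D.isCompact_K hφ) Metric.isOpen_ball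
      refine interior_maximal ?_ hopen ?_
      · intro h hh
        refine D.mem_F_of_small fun x hx => ?_
        have := hh hx
        rw [mem_ball_zero_iff] at this
        exact this.le
      · intro x hx
        rw [mem_ball_zero_iff, aff_apply, norm_smul, norm_sub_rev]
        have e1 := hj x hx
        rw [Real.norm_eq_abs, abs_of_nonneg (by positivity)]
        have e2 : (0 : ℝ) < 2 ^ n := by positivity
        calc (2 : ℝ) ^ n * ‖apx a b k m j x - g x‖ < 2 ^ n * ((1 / 2) ^ n / 2) :=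
              mul_lt_mul_of_pos_left e1 e2
          _ = 1 / 2 := by rw [← mul_div_assoc, hpow]
    · intro h hh
      apply hsub
      intro x hx
      have hxK : x ∈ D.K φ := hLφ hx
      have e1 := D.norm_le_one (interior_subset hh) hxK
      rw [aff_apply, norm_smul, Real.norm_eq_abs, abs_of_nonneg (by positivity)] at e1
      have e2 := hj x hxK
      have e3 : ‖h x - apx a b k m j x‖ ≤ (1 / 2) ^ n := by
        have e4 : (0 : ℝ) < (1 / 2) ^ n := hpos
        calc ‖h x - apx a b k m j x‖ = (1 / 2) ^ n * (2 ^ n * ‖h x - apx a b k m j x‖) := by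
              rw [← mul_assoc, mul_comm ((1 / 2 : ℝ) ^ n), hpow, one_mul]
          _ ≤ (1 / 2) ^ n * 1 := mul_le_mul_of_nonneg_left e1 e4.le
          _ = (1 / 2) ^ n := mul_one _
      have e5 : ‖h x - g x‖ ≤ ‖h x - apx a b k m j x‖ + ‖apx a b k m j x - g x‖ :=
        norm_sub_le_norm_sub_add_norm_sub _ _ _
      linarith

end Main

lemma isM1_of_subsingleton (Z : Type*) [TopologicalSpace Z] [Subsingleton Z] : IsM1 Z := by
  refine ⟨fun _ => univ, fun _ => cp_of_nhds fun g => ⟨univ, isOpen_univ, mem_univ _, ?_⟩, ?_⟩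
  · intro s _ hg
    rcases s.eq_empty_or_nonempty with rfl | ⟨z, hz⟩
    · exact disjoint_bot_right
    · exact absurd (subset_closure (Subsingleton.elim z g ▸ hz)) hg
  · refine TopologicalSpace.isTopologicalBasis_of_isOpen_of_nhds ?_ ?_
    · intro s _
      exact isOpen_discrete s
    · intro g U hg _
      exact ⟨U, mem_iUnion.mpr ⟨0, mem_univ _⟩, hg, Subset.rfl⟩

/-- `C_k(X, E)` is an M1-space for every Polish space `X` and separable normed space `E`. -/
theorem isM1_continuousMap (X : Type*) [TopologicalSpace X] [PolishSpace X]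
    (E : Type*) [NormedAddCommGroup E] [NormedSpace ℝ E] [TopologicalSpace.SeparableSpace E] :
    IsM1 C(X, E) := by
  rcases isEmpty_or_nonempty X with hX | hX
  · exact isM1_of_subsingleton _
  · let := TopologicalSpace.upgradeIsCompletelyMetrizable X
    exact main (Polish.data (TopologicalSpace.denseSeq X) (TopologicalSpace.denseRange_denseSeq X))
      (TopologicalSpace.denseRange_denseSeq X) (TopologicalSpace.denseRange_denseSeq E)

end CkM1
end
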